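import Pool.Agent.X26.LF.Stm

set_option autoImplicit false

namespace Pool.Agent.X10.LF

open Finset Pool.Agent.X26.LF

theorem event_bound (hCNT : S_CNT) (m p N : ℕ) [Fact p.Prime] (u v : Fin m → ℤ)
    (A : Finset (ZMod p)) (s : ZMod p) (hm : 1 ≤ m) (hNP : NP u v p) (hF : Free v p A)
    (ι : Fin m → Fin N) (hι : Function.Injective ι) (K L : Finset (Fin m)) (a : Fin m → ZMod p)
    (κ : Fin m → Fin N) (ha : ∀ k ∈ K, a k ∈ A) :
    p ^ 2 * (univ.filter fun x : Fin N → ZMod p => ∑ j, (u j : ZMod p) * x (ι j) = s ∧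
      ∑ k ∈ K, (v k : ZMod p) * a k + ∑ k ∈ L, (v k : ZMod p) * x (κ k) = 1).card ≤ p ^ N := by
  classical
  let c : Fin N → ZMod p := fun i => ∑ j, if ι j = i then (u j : ZMod p) else 0
  let d : Fin N → ZMod p := fun i => ∑ k ∈ L, if κ k = i then (v k : ZMod p) else 0
  have hc : ∀ x : Fin N → ZMod p, ∑ i, c i * x i = ∑ j, (u j : ZMod p) * x (ι j) := by
    intro x
    simp only [c, Finset.sum_mul]
    rw [Finset.sum_comm]
    refine Finset.sum_congr rfl fun j _ => ?_
    simp [ite_mul]
  have hd : ∀ x : Fin N → ZMod p, ∑ i, d i * x i = ∑ k ∈ L, (v k : ZMod p) * x (κ k) := by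
    intro x
    simp only [d, Finset.sum_mul]
    rw [Finset.sum_comm]
    refine Finset.sum_congr rfl fun j _ => ?_
    simp [ite_mul]
  have hcι : ∀ j, c (ι j) = (u j : ZMod p) := by
    intro j
    simp only [c]
    rw [Finset.sum_eq_single j]
    · simp
    · intro b _ hb
      rw [if_neg (fun h => hb (hι h))]
    · intro h; exact absurd (Finset.mem_univ _) h
  have hc0 : c ≠ 0 := by
    intro h
    have h1 := hcι ⟨0, hm⟩
    rw [h] at h1
    exact hNP.1 ⟨0, hm⟩ h1.symm
  have hset : (univ.filter fun x : Fin N → ZMod p => ∑ j, (u j : ZMod p) * x (ι j) = s ∧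
      ∑ k ∈ K, (v k : ZMod p) * a k + ∑ k ∈ L, (v k : ZMod p) * x (κ k) = 1) =
      (univ.filter fun x : Fin N → ZMod p => ∑ i, c i * x i = s ∧
        ∑ i, d i * x i = 1 - ∑ k ∈ K, (v k : ZMod p) * a k) := by
    ext x
    simp only [Finset.mem_filter, Finset.mem_univ, true_and, hc, hd]
    constructor
    · rintro ⟨h1, h2⟩
      exact ⟨h1, by rw [← h2]; ring⟩
    · rintro ⟨h1, h2⟩
      exact ⟨h1, by rw [h2]; ring⟩
  rw [hset]
  by_cases hl : ∃ l, d = fun i => l * c i
  · obtain ⟨l, hl⟩ := hl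
    by_cases hl0 : l = 0
    · -- the event is empty
      have hempty : (univ.filter fun x : Fin N → ZMod p => ∑ i, c i * x i = s ∧
        ∑ i, d i * x i = 1 - ∑ k ∈ K, (v k : ZMod p) * a k) = ∅ := by
        rw [Finset.filter_eq_empty_iff]
        rintro x _ ⟨_, h2⟩
        rw [hl, hl0] at h2
        simp only [zero_mul, Finset.sum_const_zero] at h2
        exact hF K a ha (sub_eq_zero.mp h2.symm).symm
      rw [hempty]
      simp
    · exfalso
      have hex : ∀ j, ∃ k ∈ L, κ k = ι j := by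
        intro j
        by_contra hcon
        push Not at hcon
        have h1 : d (ι j) = 0 := by
          simp only [d]
          refine Finset.sum_eq_zero fun k hk => ?_
          rw [if_neg (hcon k hk)]
        rw [hl] at h1
        simp only at h1
        rw [hcι] at h1
        exact (mul_ne_zero hl0 (hNP.1 j)) h1
      choose τ hτL hτ using hex
      have hτi : Function.Injective τ := by
        intro j j' h
        apply hι
        rw [← hτ j, ← hτ j', h]
      have hτb : Function.Bijective τ := Finite.injective_iff_bijective.mp hτi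
      have hκi : Function.Injective κ := by
        intro k k' h
        obtain ⟨j, rfl⟩ := hτb.2 k
        obtain ⟨j', rfl⟩ := hτb.2 k'
        rw [hτ, hτ] at h
        rw [hι h]
      have hv : ∀ j, (v (τ j) : ZMod p) = l * (u j : ZMod p) := by
        intro j
        have h1 : d (ι j) = (v (τ j) : ZMod p) := by
          simp only [d]
          rw [Finset.sum_eq_single (τ j)]
          · rw [if_pos (hτ j)]
          · intro b _ hb
            rw [if_neg]
            intro h
            exact hb (hκi (h.trans (hτ j).symm))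
          · intro h; exact absurd (hτL j) h
        rw [← h1, hl]
        simp only
        rw [hcι]
      let σ : Equiv.Perm (Fin m) := Equiv.ofBijective τ hτb
      refine hNP.2 σ.symm l fun i => ?_
      have h2 := hv (σ.symm i)
      have h3 : τ (σ.symm i) = i := σ.apply_symm_apply i
      rw [h3] at h2
      exact h2
  · exact (((hCNT p N c d s _ hc0).2 hl)).le

theorem t_BAD : S_BAD := by
  classical
  intro hCNT m p N _ u v A s hm hNP hF
  let Q : Type := (Fin m → Fin N) × Fin m × Fin m × Finset (Fin m) × Finset (Fin m)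
  let C : Type := Σ q : Q, ({i : Fin m // i ≠ q.2.2.1} → (A ⊕ Fin N))
  let w : C → Fin m → (A ⊕ Fin N) := fun c i =>
    if h : i = c.1.2.2.1 then Sum.inr (c.1.1 c.1.2.1) else c.2 ⟨i, h⟩
  let aa : C → Fin m → ZMod p := fun c i => Sum.elim (fun z : A => z.1) (fun _ => (0 : ZMod p)) (w c i)
  let kk : C → Fin m → Fin N := fun c i => Sum.elim (fun _ => c.1.1 c.1.2.1) id (w c i)
  let E : C → Finset (Fin N → ZMod p) := fun c =>
    if Function.Injective c.1.1 ∧ (∀ k ∈ c.1.2.2.2.1, aa c k ∈ A) then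
      univ.filter fun x : Fin N → ZMod p => ∑ j, (u j : ZMod p) * x (c.1.1 j) = s ∧
        ∑ k ∈ c.1.2.2.2.1, (v k : ZMod p) * aa c k +
          ∑ k ∈ c.1.2.2.2.2, (v k : ZMod p) * x (kk c k) = 1
    else ∅
  have hE : ∀ c, p ^ 2 * (E c).card ≤ p ^ N := by
    intro c
    simp only [E]
    split_ifs with h
    · exact event_bound hCNT m p N u v A s hm hNP hF c.1.1 h.1 _ _ _ _ h.2
    · simp
  have hsub : (univ.filter fun x : Fin N → ZMod p => ∃ ι : Fin m ↪ Fin N,
      ∑ j, (u j : ZMod p) * x (ι j) = s ∧ ∃ j, Bad v p A x (ι j)) ⊆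
      (univ : Finset C).biUnion E := by
    intro x hx
    rw [Finset.mem_filter] at hx
    obtain ⟨_, ι, h1, j, K, L, a, κ, hKL, haK, ⟨k, hkL, hkj⟩, hrel⟩ := hx
    rw [Finset.mem_biUnion]
    let ww : Fin m → (A ⊕ Fin N) := fun i =>
      if h : i ∈ K then Sum.inl ⟨a i, haK i h⟩ else Sum.inr (κ i)
    let c : C := ⟨(⇑ι, j, k, K, L), fun i => ww i.1⟩
    have hwk : ∀ i, w c i = ww i := by
      intro i
      simp only [w, c]
      split_ifs with h
      · subst h
        have hkK : i ∉ K := fun h' => (Finset.disjoint_left.mp hKL) h' hkL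
        simp only [ww, dif_neg hkK, hkj]
      · rfl
    have haa : ∀ i ∈ K, aa c i = a i := by
      intro i hi
      simp only [aa, hwk, ww, dif_pos hi, Sum.elim_inl]
    have hkk : ∀ i ∈ L, kk c i = κ i := by
      intro i hi
      have hiK : i ∉ K := fun h' => (Finset.disjoint_left.mp hKL) h' hi
      simp only [kk, hwk, ww, dif_neg hiK, Sum.elim_inr, id]
    refine ⟨c, Finset.mem_univ _, ?_⟩
    have hcond : Function.Injective c.1.1 ∧ (∀ k ∈ c.1.2.2.2.1, aa c k ∈ A) :=
      ⟨ι.injective, fun i hi => by rw [haa i hi]; exact haK i hi⟩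
    simp only [E]
    rw [if_pos hcond, Finset.mem_filter]
    refine ⟨Finset.mem_univ _, h1, ?_⟩
    rw [← hrel]
    congr 1
    · exact Finset.sum_congr rfl fun i hi => by rw [haa i hi]
    · exact Finset.sum_congr rfl fun i hi => by rw [hkk i hi]
  have hcardC : Fintype.card C ≤ m ^ 2 * 4 ^ m * (A.card + N) ^ (2 * m - 1) := by
    have h1 : Fintype.card C = ∑ q : Q, (A.card + N) ^ (m - 1) := by
      rw [Fintype.card_sigma]
      refine Finset.sum_congr rfl fun q _ => ?_
      rw [Fintype.card_fun]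
      congr 1
      · simp
      · simp
    rw [h1, Finset.sum_const, smul_eq_mul, Finset.card_univ]
    have h2 : Fintype.card Q = N ^ m * (m * (m * (2 ^ m * 2 ^ m))) := by
      simp [Q]
    rw [h2]
    have h4 : (4 : ℕ) ^ m = 2 ^ m * 2 ^ m := by rw [← mul_pow]; norm_num
    have h5 : (A.card + N) ^ (2 * m - 1) = (A.card + N) ^ m * (A.card + N) ^ (m - 1) := by
      rw [← pow_add]; congr 1; omega
    have h6 : N ^ m ≤ (A.card + N) ^ m := Nat.pow_le_pow_left (Nat.le_add_left _ _) _
    calc N ^ m * (m * (m * (2 ^ m * 2 ^ m))) * (A.card + N) ^ (m - 1)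
        ≤ (A.card + N) ^ m * (m * (m * (2 ^ m * 2 ^ m))) * (A.card + N) ^ (m - 1) := by gcongr
      _ = m ^ 2 * 4 ^ m * (A.card + N) ^ (2 * m - 1) := by rw [h4, h5]; ring
  calc p ^ 2 * _ ≤ p ^ 2 * ((univ : Finset C).biUnion E).card :=
        Nat.mul_le_mul_left _ (Finset.card_le_card hsub)
    _ ≤ p ^ 2 * ∑ c : C, (E c).card := Nat.mul_le_mul_left _ Finset.card_biUnion_le
    _ = ∑ c : C, p ^ 2 * (E c).card := by rw [Finset.mul_sum]
    _ ≤ ∑ _c : C, p ^ N := Finset.sum_le_sum fun c _ => hE c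
    _ = Fintype.card C * p ^ N := by simp
    _ ≤ m ^ 2 * 4 ^ m * (A.card + N) ^ (2 * m - 1) * p ^ N := Nat.mul_le_mul_right _ hcardC

end Pool.Agent.X10.LF
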